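import Pool.Agent.H43.Chq4

namespace Pool.Agent.Results.MP_8220a0_an.Cex

open Set Filter MeasureTheory Real Pool.Agent.H43
open scoped ENNReal

/-- `2π`-periodic weight functions. -/
def IsWeight (W : ℝ → ℝ) : Prop :=
  (∀ θ, 0 ≤ W θ) ∧ Function.Periodic W (2 * π) ∧ Measurable W ∧
    IntervalIntegrable W volume (-π) π ∧ 0 < ∫ θ in (-π)..π, W θ

/-- Real trigonometric polynomials of degree at most `n`. -/
def T (n : ℕ) : Submodule ℝ (ℝ → ℝ) :=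
  Submodule.span ℝ {f | ∃ k : ℕ, k ≤ n ∧ (f = (fun θ => cos (k * θ)) ∨ f = fun θ => sin (k * θ))}

/-- A Chebyshev-type quadrature of degree `n` for `W` with `N` nodes exists. -/
def Quad (W : ℝ → ℝ) (n N : ℕ) : Prop :=
  ∃ (θ : Fin N → ℝ) (w : ℝ), Monotone θ ∧ ∀ p ∈ T n, ∫ x in (-π)..π, p x * W x = w * ∑ j, p (θ j)

/-- The least number from which on every node count occurs. -/
noncomputable def Nbar (W : ℝ → ℝ) (n : ℕ) : ℕ∞ :=
  ⨅ (N₀ : ℕ) (_ : ∀ N, N₀ ≤ N → Quad W n N), (N₀ : ℕ∞)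

/-- Non-negative non-zero trigonometric polynomials. -/
def Tpos (n : ℕ) : Set (ℝ → ℝ) := {p | p ∈ T n ∧ (∀ θ, 0 ≤ p θ) ∧ p ≠ 0}

/-- The quotient in Kane's bound. -/
noncomputable def ratio (W p : ℝ → ℝ) : ℝ :=
  (∫ θ in (-π)..π, |deriv p θ|) / ∫ θ in (-π)..π, p θ * W θ

/-- Kane's quantity. -/
noncomputable def Kane (W : ℝ → ℝ) (n : ℕ) : ℕ∞ :=
  ENat.floor (ENNReal.ofReal ((∫ θ in (-π)..π, W θ) / 2) *
    ⨆ p ∈ Tpos n, ENNReal.ofReal (ratio W p)) + 1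

theorem result : ∃ W : ℝ → ℝ, IsWeight W ∧ (∀ᵐ θ, W θ ≠ 0) ∧
    ∀ C : ℕ, ∃ᶠ n in atTop, Nbar W n ≠ ⊤ ∧ C * Nbar W n ≤ Kane W n := by
  obtain ⟨e, h0, H⟩ := Chq.main
  have hp := pi_gt_three
  have i1 : ∫ θ in (-π)..π, Chq.Wt e θ = π := by
    have := (Chq.Wt_push h0).2 fun _ => 1
    simp only [one_mul] at this
    rw [this]; simp
  refine ⟨Chq.Wt e, ⟨fun θ => abs_nonneg _, Chq.Wt_per, Chq.Wt_meas, (Chq.Wt_push h0).1,
    by rw [i1]; linarith⟩, Chq.Wt_ne h0, fun C => frequently_atTop.2 fun a => ?_⟩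
  obtain ⟨n, N₀, h1, h2, h3, h4⟩ := H (C + a)
  have b : Nbar (Chq.Wt e) n ≤ N₀ := iInf₂_le N₀ h2
  refine ⟨n, by omega, ne_top_of_le_ne_top (ENat.coe_ne_top _) b, ?_⟩
  obtain ⟨t1, t2⟩ := Chq.test (n := n) (by omega)
  have m : (fun θ => ((1 - cos θ) / 2) ^ n) ∈ Tpos n :=
    ⟨t1, fun θ => pow_nonneg (by linarith [cos_le_one θ]) n, fun c => by
      simpa using congrFun c π⟩
  have i2 : ∫ θ in (-π)..π, ((1 - cos θ) / 2) ^ n * Chq.Wt e θ = Chq.mom (Chq.hs e) n := by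
    rw [(Chq.Wt_push h0).2 fun θ => ((1 - cos θ) / 2) ^ n, Chq.mom]
    congr 1; ext u
    rw [Chq.cos_two_arcsin (Chq.hs_abs (abs_sin_le_one u)), pow_mul]; congr 1; ring
  have r : ((C * N₀ : ℕ) : ℝ) ≤ ratio (Chq.Wt e) fun θ => ((1 - cos θ) / 2) ^ n := by
    rw [ratio, i2, le_div_iff₀ h4]
    push_cast at h3 ⊢
    have : 0 ≤ (a : ℝ) * N₀ * Chq.mom (Chq.hs e) n := by positivity
    linarith
  refine (mul_le_mul_right b _).trans (le_trans ?_ le_self_add)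
  rw [← Nat.cast_mul, ENat.le_floor, i1, ENat.toENNReal_coe, ← ENNReal.ofReal_natCast]
  refine (ENNReal.ofReal_le_ofReal r).trans ((le_iSup₂ (f := fun p (_ : p ∈ Tpos n) =>
    ENNReal.ofReal (ratio (Chq.Wt e) p)) _ m).trans (le_mul_of_one_le_left zero_le ?_))
  exact ENNReal.one_le_ofReal.2 (by linarith)

end Pool.Agent.Results.MP_8220a0_an.Cex
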